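import Mathlib

/-!
# The boundary independence number is at most the order minus the minimum degree
-/

set_option autoImplicit false

namespace Pool.Agent.Results.MP_8bdd73_co.NMinusDelta

open SimpleGraph Finset

variable {V : Type*}

/-- The eccentricity of `v` in its component. -/
noncomputable def ecc (G : SimpleGraph V) (v : V) : ℕ :=
  sSup {d | ∃ u, G.Reachable v u ∧ G.dist v u = d}

/-- Broadcasts: `f(v) = 1` on components `K₁ = {v}`, and `f(v)` is at most the eccentricity of
`v` in its component on components with at least two vertices. -/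
def IsBroadcast (G : SimpleGraph V) (f : V → ℕ) : Prop :=
  ∀ v, ((∀ u, ¬ G.Adj v u) → f v = 1) ∧ ((∃ u, G.Adj v u) → f v ≤ ecc G v)

/-- `N_f(v)`: the vertices at distance at most `f(v)` from `v`. -/
def hearSet (G : SimpleGraph V) (f : V → ℕ) (v : V) : Set V :=
  {u | G.Reachable v u ∧ G.dist v u ≤ f v}

/-- `B_f(v)`: the vertices at distance exactly `f(v)` from `v`. -/
def bdrySet (G : SimpleGraph V) (f : V → ℕ) (v : V) : Set V :=
  {u | G.Reachable v u ∧ G.dist v u = f v}

/-- `f` is boundary independent. -/
def IsBoundaryIndep (G : SimpleGraph V) (f : V → ℕ) : Prop :=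
  ∀ u v, 0 < f u → 0 < f v → u ≠ v →
    hearSet G f u ∩ hearSet G f v ⊆ bdrySet G f u ∩ bdrySet G f v

/-- The boundary independence number: the maximum weight of a boundary independent broadcast. -/
noncomputable def boundaryIndepNum [Fintype V] (G : SimpleGraph V) : ℕ :=
  sSup {k | ∃ f : V → ℕ, IsBroadcast G f ∧ IsBoundaryIndep G f ∧ ∑ v, f v = k}

lemma exists_at_dist {G : SimpleGraph V} {v w : V} (h : G.Reachable v w) {i : ℕ}
    (hi : i ≤ G.dist v w) : ∃ x, G.Reachable v x ∧ G.dist v x = i := by
  obtain ⟨p, hp⟩ := h.exists_walk_length_eq_dist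
  refine ⟨p.getVert i, ⟨p.take i⟩, ?_⟩
  have h1 : (p.take i).length = G.dist v (p.getVert i) :=
    length_eq_dist_of_subwalk hp (p.isSubwalk_take i)
  rw [← h1, Walk.take_length]
  omega

section

variable [Fintype V] {G : SimpleGraph V} [DecidableRel G.Adj]

omit [DecidableRel G.Adj] in
lemma exists_layers {f : V → ℕ} (hf : IsBroadcast G f) (v : V) (hv : ∃ u, G.Adj v u) {i : ℕ}
    (hi : i ≤ f v) : ∃ x, G.Reachable v x ∧ G.dist v x = i := by
  have h1 := (hf v).2 hv
  have h2 : {d | ∃ u, G.Reachable v u ∧ G.dist v u = d}.Nonempty := ⟨_, v, Reachable.refl v, rfl⟩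
  have h3 : BddAbove {d | ∃ u, G.Reachable v u ∧ G.dist v u = d} := by
    have : {d | ∃ u, G.Reachable v u ∧ G.dist v u = d}.Finite :=
      (Set.finite_range (fun u => G.dist v u)).subset (by
        rintro d ⟨u, _, rfl⟩
        exact ⟨u, rfl⟩)
    exact this.bddAbove
  obtain ⟨w, hw, hd⟩ := Nat.sSup_mem h2 h3
  exact exists_at_dist hw (by rw [hd]; exact hi.trans h1)

open Classical in
lemma card_int {f : V → ℕ} (hf : IsBroadcast G f) (u : V) :
    f u ≤ (univ.filter fun w => G.Reachable u w ∧ G.dist u w < f u).card := by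
  by_cases hu : ∃ w, G.Adj u w
  · have h : ∀ i : Fin (f u), ∃ x, G.Reachable u x ∧ G.dist u x = i := fun i =>
      exists_layers hf u hu i.2.le
    choose x hx using h
    have hinj : Function.Injective x := by
      intro i j hij
      apply Fin.ext
      rw [← (hx i).2, ← (hx j).2, hij]
    have h1 : (univ.image x).card = f u := by
      rw [Finset.card_image_of_injective _ hinj, Finset.card_univ, Fintype.card_fin]
    rw [← h1]
    apply Finset.card_le_card
    intro w hw
    obtain ⟨i, _, rfl⟩ := Finset.mem_image.1 hw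
    simp only [Finset.mem_filter, Finset.mem_univ, true_and]
    exact ⟨(hx i).1, by rw [(hx i).2]; exact lt_of_lt_of_eq i.2 h1.symm⟩
  · push Not at hu
    rw [(hf u).1 hu]
    rw [Nat.one_le_iff_ne_zero, ← Nat.pos_iff_ne_zero, Finset.card_pos]
    exact ⟨u, by simp⟩

open Classical in
lemma card_hear {f : V → ℕ} (hf : IsBroadcast G f) (v : V) (hv : 0 < f v) :
    f v + G.degree v ≤ (univ.filter fun w => G.Reachable v w ∧ G.dist v w ≤ f v).card := by
  by_cases hu : ∃ w, G.Adj v w
  · have h : ∀ i : Fin (f v - 1), ∃ x, G.Reachable v x ∧ G.dist v x = i + 2 := fun i =>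
      exists_layers hf v hu (by omega)
    choose x hx using h
    have hinj : Function.Injective x := by
      intro i j hij
      apply Fin.ext
      have h1 := (hx i).2
      have h2 := (hx j).2
      rw [hij] at h1
      omega
    have h1 : (univ.image x).card = f v - 1 := by
      rw [Finset.card_image_of_injective _ hinj, Finset.card_univ, Fintype.card_fin]
    have h2 : (insert v (G.neighborFinset v)).card = G.degree v + 1 := by
      rw [Finset.card_insert_of_notMem (by simp), card_neighborFinset_eq_degree]
    have hd : Disjoint (insert v (G.neighborFinset v)) (univ.image x) := by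
      rw [Finset.disjoint_left]
      intro w hw hw'
      obtain ⟨i, _, rfl⟩ := Finset.mem_image.1 hw'
      have h3 := (hx i).2
      rcases Finset.mem_insert.1 hw with h4 | h4
      · rw [h4, dist_self] at h3
        omega
      · rw [mem_neighborFinset, ← dist_eq_one_iff_adj] at h4
        omega
    have h3 : f v + G.degree v = (insert v (G.neighborFinset v) ∪ univ.image x).card := by
      rw [Finset.card_union_of_disjoint hd, h1, h2]
      omega
    rw [h3]
    apply Finset.card_le_card
    intro w hw
    simp only [Finset.mem_filter, Finset.mem_univ, true_and]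
    rcases Finset.mem_union.1 hw with hw | hw
    · rcases Finset.mem_insert.1 hw with h4 | h4
      · rw [h4]
        exact ⟨Reachable.refl v, by simp⟩
      · rw [mem_neighborFinset] at h4
        refine ⟨h4.reachable, ?_⟩
        rw [dist_eq_one_iff_adj.2 h4]
        exact hv
    · obtain ⟨i, _, rfl⟩ := Finset.mem_image.1 hw
      exact ⟨(hx i).1, by rw [(hx i).2]; omega⟩
  · push Not at hu
    have h0 : G.degree v = 0 := by
      rw [← card_neighborFinset_eq_degree, Finset.card_eq_zero, Finset.eq_empty_iff_forall_notMem]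
      intro w hw
      exact hu w ((mem_neighborFinset _ _ _).1 hw)
    rw [(hf v).1 hu, h0]
    rw [Nat.one_le_iff_ne_zero, ← Nat.pos_iff_ne_zero, Finset.card_pos]
    exact ⟨v, by simp⟩

open Classical in
lemma weight_le {f : V → ℕ} (hf : IsBroadcast G f) (hbn : IsBoundaryIndep G f) (v : V)
    (hv : 0 < f v) : ∑ u, f u + G.degree v ≤ Fintype.card V := by
  let P : Finset V := (univ.filter fun u => 0 < f u).erase v
  let I : V → Finset V := fun u => univ.filter fun w => G.Reachable u w ∧ G.dist u w < f u
  let N : Finset V := univ.filter fun w => G.Reachable v w ∧ G.dist v w ≤ f v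
  have hsum : ∑ u, f u = f v + ∑ u ∈ P, f u := by
    rw [← Finset.add_sum_erase univ f (Finset.mem_univ v)]
    congr 1
    symm
    apply Finset.sum_subset
    · exact Finset.erase_subset_erase _ (Finset.filter_subset _ _)
    · intro u hu hu'
      by_contra hne
      apply hu'
      rw [Finset.mem_erase] at hu ⊢
      exact ⟨hu.1, Finset.mem_filter.2 ⟨Finset.mem_univ _, Nat.pos_of_ne_zero hne⟩⟩
  have hP : ∀ u ∈ P, u ≠ v ∧ 0 < f u := by
    intro u hu
    rw [Finset.mem_erase, Finset.mem_filter] at hu
    exact ⟨hu.1, hu.2.2⟩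
  have hdis : ∀ u u', 0 < f u → 0 < f u' → u ≠ u' → ∀ w, w ∈ I u →
      ¬ (G.Reachable u' w ∧ G.dist u' w ≤ f u') := by
    intro u u' hu hu' hne w hw hw'
    obtain ⟨h1, h2⟩ := (Finset.mem_filter.1 hw).2
    have h3 := (hbn u u' hu hu' hne ⟨⟨h1, h2.le⟩, hw'⟩).1.2
    omega
  have hU : (P.biUnion I).card = ∑ u ∈ P, (I u).card := by
    apply Finset.card_biUnion
    intro u hu u' hu' hne
    change Disjoint (I u) (I u')
    rw [Finset.disjoint_left]
    intro w hw hw'
    have h1 := (Finset.mem_filter.1 hw').2
    exact hdis u u' (hP u hu).2 (hP u' hu').2 hne w hw ⟨h1.1, h1.2.le⟩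
  have hNU : Disjoint N (P.biUnion I) := by
    rw [Finset.disjoint_left]
    intro w hw hw'
    obtain ⟨u, hu, hwu⟩ := Finset.mem_biUnion.1 hw'
    exact hdis u v (hP u hu).2 hv (hP u hu).1 w hwu (Finset.mem_filter.1 hw).2
  have h1 := Finset.card_le_univ (N ∪ P.biUnion I)
  rw [Finset.card_union_of_disjoint hNU, hU] at h1
  have h2 : f v + G.degree v ≤ N.card := card_hear hf v hv
  have h3 : ∑ u ∈ P, f u ≤ ∑ u ∈ P, (I u).card := Finset.sum_le_sum fun u _ => card_int hf u
  omega

end

/-- Every finite graph `G` of order `n` satisfies `α_bn(G) + δ(G) ≤ n`. -/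
theorem result (V : Type*) [Fintype V] (G : SimpleGraph V) [DecidableRel G.Adj] :
    boundaryIndepNum G + G.minDegree ≤ Fintype.card V := by
  classical
  have hle : boundaryIndepNum G ≤ Fintype.card V - G.minDegree := by
    unfold boundaryIndepNum
    rcases Set.eq_empty_or_nonempty
      {k | ∃ f : V → ℕ, IsBroadcast G f ∧ IsBoundaryIndep G f ∧ ∑ v, f v = k} with h | h
    · rw [h]
      simp
    apply csSup_le h
    rintro k ⟨f, hf, hbn, rfl⟩
    by_cases hv : ∃ v, 0 < f v
    · obtain ⟨v, hv⟩ := hv
      have h1 := weight_le hf hbn v hv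
      have h2 := G.minDegree_le_degree v
      omega
    · push Not at hv
      have : ∑ v, f v = 0 := Finset.sum_eq_zero fun v _ => Nat.le_zero.1 (hv v)
      omega
  have hmin : G.minDegree ≤ Fintype.card V := by
    rcases isEmpty_or_nonempty V with h | h
    · simp [SimpleGraph.minDegree]
    · exact G.minDegree_lt_card.le
  omega

end Pool.Agent.Results.MP_8bdd73_co.NMinusDelta
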